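import Pool.Agent.W988.WD.Defs

/-! WD-KSET: properties of the weakly closed convex hull of the conjugates. -/

set_option autoImplicit false
open scoped InnerProductSpace Topology
open Filter

namespace Pool.Agent.W481.WD

open Pool.Agent.W988.WD

section
variable {H : Type} [NormedAddCommGroup H] [InnerProductSpace ℂ H] [CompleteSpace H]

theorem hull_le {N : VonNeumannAlgebra H} {x : H →L[ℂ] H} {S : Set (H →L[ℂ] H)} (hS : Convex ℝ S)
    (h : ∀ u ∈ unitary (H →L[ℂ] H), u ∈ N → u * x * star u ∈ S) :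
    convexHull ℝ (Conj N x) ⊆ S := by
  refine convexHull_min ?_ hS
  rintro T ⟨u, hu, huN, rfl⟩
  exact h u hu huN

theorem convex_vN (M : VonNeumannAlgebra H) : Convex ℝ (M : Set (H →L[ℂ] H)) := by
  intro T1 h1 T2 h2 a b _ _ _
  have e : a • T1 + b • T2 = (a : ℂ) • T1 + (b : ℂ) • T2 := by
    ext v
    simp
  rw [e]
  exact add_mem (S := VonNeumannAlgebra H) (s := M)
    (M.toStarSubalgebra.smul_mem (show T1 ∈ M.toStarSubalgebra from h1) (a : ℂ))
    (M.toStarSubalgebra.smul_mem (show T2 ∈ M.toStarSubalgebra from h2) (b : ℂ))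

theorem hull_M {N M : VonNeumannAlgebra H} (hNM : ∀ a ∈ N, a ∈ M) {x : H →L[ℂ] H} (hx : x ∈ M)
    {y : H →L[ℂ] H} (hy : y ∈ convexHull ℝ (Conj N x)) : y ∈ M :=
  hull_le (convex_vN M) (fun u _ huN => mul_mem (mul_mem (hNM u huN) hx)
    (star_mem (hNM u huN))) hy

theorem norm_conj {x u : H →L[ℂ] H} (hu : u ∈ unitary (H →L[ℂ] H)) :
    ‖u * x * star u‖ ≤ ‖x‖ := by
  have h1 := CStarRing.norm_mul_coe_unitary (u * x) (star (⟨u, hu⟩ : unitary (H →L[ℂ] H)))
  have h2 := CStarRing.norm_coe_unitary_mul (⟨u, hu⟩ : unitary (H →L[ℂ] H)) x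
  exact le_of_eq (h1.trans h2)

theorem hull_norm {N : VonNeumannAlgebra H} {x : H →L[ℂ] H}
    {y : H →L[ℂ] H} (hy : y ∈ convexHull ℝ (Conj N x)) : ‖y‖ ≤ ‖x‖ := by
  have h1 := hull_le (S := Metric.closedBall (0 : H →L[ℂ] H) ‖x‖) (convex_closedBall _ _)
    (N := N) (x := x) (fun u hu _ => by
      rw [mem_closedBall_zero_iff]
      exact norm_conj hu) hy
  rwa [mem_closedBall_zero_iff] at h1

theorem hull_conj {N : VonNeumannAlgebra H} {x u : H →L[ℂ] H} (hu : u ∈ unitary (H →L[ℂ] H))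
    (huN : u ∈ N) {y : H →L[ℂ] H} (hy : y ∈ convexHull ℝ (Conj N x)) :
    u * y * star u ∈ convexHull ℝ (Conj N x) := by
  have hadd : ∀ a b : ℝ, ∀ T1 T2 : H →L[ℂ] H, u * (a • T1 + b • T2) * star u =
      a • (u * T1 * star u) + b • (u * T2 * star u) := by
    intro a b T1 T2
    rw [mul_add, add_mul, mul_smul_comm, mul_smul_comm, smul_mul_assoc, smul_mul_assoc]
  refine hull_le (N := N) (x := x)
    (S := {T : H →L[ℂ] H | u * T * star u ∈ convexHull ℝ (Conj N x)}) ?_ ?_ hy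
  · intro T1 h1 T2 h2 a b ha hb hab
    have h3 := (convex_convexHull ℝ (Conj N x)) h1 h2 ha hb hab
    have h4 : u * (a • T1 + b • T2) * star u ∈ convexHull ℝ (Conj N x) := by
      rw [hadd]
      exact h3
    exact h4
  · intro v hv hvN
    have hm : u * v ∈ N := mul_mem huN hvN
    have hm2 : u * v ∈ unitary (H →L[ℂ] H) := mul_mem hu hv
    have h5 : u * (v * x * star v) * star u ∈ Conj N x := by
      refine ⟨u * v, hm2, hm, ?_⟩
      rw [star_mul]
      simp only [mul_assoc]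
    exact subset_convexHull ℝ _ h5

theorem inn_star (u T : H →L[ℂ] H) (ξ η : H) :
    ⟪star u η, T ξ⟫_ℂ = ⟪η, (u * T) ξ⟫_ℂ := by
  rw [ContinuousLinearMap.star_eq_adjoint, ContinuousLinearMap.adjoint_inner_left]
  rfl

end

theorem p_KSET : S_KSET := by
  intro H _ _ _ N M hNM x hx
  refine ⟨?_, ?_, ?_, ?_, ?_⟩
  · intro n ξ η ε hε
    refine ⟨x, subset_convexHull ℝ _ ⟨1, one_mem _, one_mem _, by simp⟩, fun i => ?_⟩
    rw [sub_self]
    simpa using hε
  · intro z hz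
    constructor
    · rw [← M.commutant_commutant, VonNeumannAlgebra.mem_commutant_iff]
      intro g hg
      rw [VonNeumannAlgebra.mem_commutant_iff] at hg
      apply ContinuousLinearMap.ext
      intro ξ
      apply ext_inner_left ℂ
      intro η
      have key : ∀ ε : ℝ, 0 < ε → ‖⟪η, (g * z) ξ⟫_ℂ - ⟪η, (z * g) ξ⟫_ℂ‖ ≤ ε := by
        intro ε hε
        obtain ⟨y, hy, hyi⟩ := hz 2 ![ξ, g ξ] ![star g η, η] (ε / 2) (half_pos hε)
        have h0 := hyi 0
        have h1 := hyi 1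
        simp only [Matrix.cons_val_zero, Matrix.cons_val_one] at h0 h1
        have hyM := hg y (hull_M hNM hx hy)
        rw [inn_star] at h0
        have e1 : ⟪η, (g * (y - z)) ξ⟫_ℂ = ⟪η, (g * y) ξ⟫_ℂ - ⟪η, (g * z) ξ⟫_ℂ := by
          rw [mul_sub, ContinuousLinearMap.sub_apply, inner_sub_right]
        have e2 : ⟪η, (y - z) (g ξ)⟫_ℂ = ⟪η, (y * g) ξ⟫_ℂ - ⟪η, (z * g) ξ⟫_ℂ := by
          rw [ContinuousLinearMap.sub_apply, inner_sub_right]
          rfl
        rw [e1] at h0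
        rw [e2, hyM] at h1
        have e3 : ⟪η, (g * z) ξ⟫_ℂ - ⟪η, (z * g) ξ⟫_ℂ =
            (⟪η, (g * y) ξ⟫_ℂ - ⟪η, (z * g) ξ⟫_ℂ) - (⟪η, (g * y) ξ⟫_ℂ - ⟪η, (g * z) ξ⟫_ℂ) := by
          ring
        rw [e3]
        refine (norm_sub_le _ _).trans ?_
        linarith
      have h2 : ‖⟪η, (g * z) ξ⟫_ℂ - ⟪η, (z * g) ξ⟫_ℂ‖ ≤ 0 := le_of_forall_pos_le_add (by
        intro ε hε
        rw [zero_add]
        exact key ε hε)
      exact sub_eq_zero.1 (norm_le_zero_iff.1 h2)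
    · refine ContinuousLinearMap.opNorm_le_bound _ (norm_nonneg _) fun ξ => ?_
      have key : ∀ ε : ℝ, 0 < ε → ‖z ξ‖ * ‖z ξ‖ ≤ ‖x‖ * ‖ξ‖ * ‖z ξ‖ + ε := by
        intro ε hε
        obtain ⟨y, hy, hyi⟩ := hz 1 ![ξ] ![z ξ] ε hε
        have h0 := hyi 0
        simp only [Matrix.cons_val_zero] at h0
        have e1 : ‖z ξ‖ * ‖z ξ‖ = ‖⟪z ξ, z ξ⟫_ℂ‖ := by
          rw [← inner_self_re_eq_norm, inner_self_eq_norm_mul_norm]
        have e2 : ⟪z ξ, z ξ⟫_ℂ = ⟪z ξ, y ξ⟫_ℂ - ⟪z ξ, (y - z) ξ⟫_ℂ := by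
          rw [ContinuousLinearMap.sub_apply, inner_sub_right]
          ring
        have h1 : ‖⟪z ξ, y ξ⟫_ℂ‖ ≤ ‖x‖ * ‖ξ‖ * ‖z ξ‖ := by
          refine (norm_inner_le_norm _ _).trans ?_
          rw [mul_comm]
          refine mul_le_mul_of_nonneg_right ?_ (norm_nonneg _)
          exact (y.le_opNorm ξ).trans (mul_le_mul_of_nonneg_right (hull_norm hy) (norm_nonneg _))
        rw [e1, e2]
        refine (norm_sub_le _ _).trans ?_
        linarith
      have h2 := le_of_forall_pos_le_add key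
      by_cases h3 : ‖z ξ‖ = 0
      · rw [h3]
        positivity
      · have h4 : 0 < ‖z ξ‖ := lt_of_le_of_ne (norm_nonneg _) (Ne.symm h3)
        exact le_of_mul_le_mul_right h2 h4
  · intro z1 h1 z2 h2 a b ha hb hab
    intro n ξ η ε hε
    obtain ⟨y1, hy1, hi1⟩ := h1 n ξ η (ε / 2) (half_pos hε)
    obtain ⟨y2, hy2, hi2⟩ := h2 n ξ η (ε / 2) (half_pos hε)
    refine ⟨a • y1 + b • y2, (convex_convexHull ℝ _) hy1 hy2 ha hb hab, fun i => ?_⟩
    have e : ⟪η i, (a • y1 + b • y2 - (a • z1 + b • z2)) (ξ i)⟫_ℂ =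
        (a : ℂ) * ⟪η i, (y1 - z1) (ξ i)⟫_ℂ + (b : ℂ) * ⟪η i, (y2 - z2) (ξ i)⟫_ℂ := by
      have e1 : (a • y1 + b • y2 - (a • z1 + b • z2)) (ξ i) =
          (a : ℂ) • (y1 - z1) (ξ i) + (b : ℂ) • (y2 - z2) (ξ i) := by
        simp only [ContinuousLinearMap.sub_apply, ContinuousLinearMap.add_apply,
          ContinuousLinearMap.smul_apply, Complex.coe_smul, smul_sub]
        abel
      rw [e1, inner_add_right, inner_smul_right, inner_smul_right]
    rw [e]
    refine (norm_add_le _ _).trans_lt ?_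
    rw [norm_mul, norm_mul, Complex.norm_real, Complex.norm_real, Real.norm_of_nonneg ha,
      Real.norm_of_nonneg hb]
    have h3 := mul_le_mul_of_nonneg_left (hi1 i).le ha
    have h4 := mul_le_mul_of_nonneg_left (hi2 i).le hb
    have h5 : a * (ε / 2) + b * (ε / 2) = ε / 2 := by rw [← add_mul, hab, one_mul]
    linarith
  · intro u hu huN z hz n ξ η ε hε
    obtain ⟨y, hy, hi⟩ := hz n (fun i => star u (ξ i)) (fun i => star u (η i)) ε hε
    refine ⟨u * y * star u, hull_conj hu huN hy, fun i => ?_⟩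
    have h1 : ‖⟪star u (η i), (y - z) (star u (ξ i))⟫_ℂ‖ < ε := hi i
    rw [inn_star] at h1
    have e : (u * y * star u - u * z * star u) (ξ i) = (u * (y - z)) (star u (ξ i)) := by
      rw [← sub_mul, ← mul_sub]
      rfl
    rw [e]
    exact h1
  · intro ι U z w hz hw n ξ η ε hε
    have h1 : ∀ᶠ i in (U : Filter ι), ∀ j : Fin n, ‖⟪η j, (z i - w) (ξ j)⟫_ℂ‖ < ε / 2 := by
      rw [eventually_all]
      intro j
      have h2 := (tendsto_iff_norm_sub_tendsto_zero.1 (hw (ξ j) (η j))).eventually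
        (gt_mem_nhds (half_pos hε))
      filter_upwards [h2] with i hi
      rw [ContinuousLinearMap.sub_apply, inner_sub_right]
      exact hi
    obtain ⟨i, hi⟩ := h1.exists
    obtain ⟨y, hy, hyi⟩ := hz i n ξ η (ε / 2) (half_pos hε)
    refine ⟨y, hy, fun j => ?_⟩
    have e : ⟪η j, (y - w) (ξ j)⟫_ℂ =
        ⟪η j, (y - z i) (ξ j)⟫_ℂ + ⟪η j, (z i - w) (ξ j)⟫_ℂ := by
      rw [← inner_add_right, ← ContinuousLinearMap.add_apply, sub_add_sub_cancel]
    rw [e]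
    refine (norm_add_le _ _).trans_lt ?_
    linarith [hi j, hyi j]

end Pool.Agent.W481.WD
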